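import Pool.Agent.V60.LD.HallCount
import Pool.Agent.V11001.KM.Near
import Pool.Agent.Y854.GM.Win

/-!
# Hall's conjecture for abscissas near the powers of almost every real number

Let `ν n / log n → ∞`, for example `ν n = n`.  For almost every real `u > 1`, all `θ < 1 / 6` and all but finitely many
`n` EVERY integral point `(x, y)` of every curve `y ^ 2 = x ^ 3 + d`, `d ≠ 0`, with `||x| - u ^ (ν n)| ≤ u ^ (θ ν n)`
satisfies `|x| < 32 |d|`, which is much more than Hall's bound `|x| ≤ C |d| ^ (2 + ε)`.  The same holds for the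
abscissas in the windows `||x| - α v_n| ≤ v_n ^ θ` around the multiples of a thin sequence `v`, for almost every `α`.
-/

set_option autoImplicit false

open Filter Topology MeasureTheory

namespace Pool.Agent.Results.MP_9d7cd1_nt.AbscissaWindows

open Pool.Agent.V11001.KM

/-- the exponent of convergence of the sequence `v` is at most `τ` -/
def ExpLe (v : ℕ → ℝ) (τ : ℝ) : Prop := ∀ t : ℝ, τ < t → Summable (fun n : ℕ => (v n) ^ (-t))

/-- the integral points `(x, y)` of Mordell curves `y ^ 2 = x ^ 3 + d`, `d ≠ 0`, with `|x|` in the set `W` satisfy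
`|x| < 32 |d|`, apart from those with `|x| < x₀` -/
def HallOn (W : Set ℝ) (x₀ : ℝ) : Prop :=
  ∀ d x y : ℤ, d ≠ 0 → y ^ 2 = x ^ 3 + d → x₀ ≤ |(x : ℝ)| → |(x : ℝ)| ∈ W → |x| < 32 * |d|

lemma mem_E {d x y : ℤ} (hd : d ≠ 0) (h : y ^ 2 = x ^ 3 + d) (hx : ¬ |x| < 32 * |d|) :
    x.natAbs ∈ Pool.Agent.V60.Hall.E := by
  have hd1 : 1 ≤ |d| := Int.one_le_abs hd
  have hx0 : 0 < x := by
    by_contra hcon
    push Not at hcon
    -- `x ≤ 0`: then `|d| ≥ |x| ^ 3`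
    obtain ⟨z, hz⟩ : ∃ z : ℤ, z = -x := ⟨_, rfl⟩
    have hz0 : 0 ≤ z := by omega
    have e : x = -z := by omega
    have e2 : d = y ^ 2 + z ^ 3 := by
      rw [e] at h
      have : (-z) ^ 3 = -(z ^ 3) := by ring
      rw [this] at h
      linarith
    have h3 : 0 ≤ z ^ 3 := by positivity
    have h4 : z ≤ z ^ 3 := by
      rcases hz0.eq_or_lt with h0 | h0
      · rw [← h0]; norm_num
      · have h1 : 1 ≤ z := h0
        exact le_self_pow₀ h1 (by norm_num)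
    have h5 : 0 ≤ y ^ 2 := sq_nonneg y
    have h6 : |d| = d := abs_of_nonneg (by linarith)
    have h7 : |x| = z := by rw [e, abs_neg, abs_of_nonneg hz0]
    apply hx
    rw [h6, h7]
    linarith
  refine ⟨y.natAbs, ?_, ?_⟩
  · rw [Int.natCast_natAbs, Int.natCast_natAbs, sq_abs, abs_of_pos hx0]
    intro h1
    apply hd
    linarith
  · rw [Int.natCast_natAbs, Int.natCast_natAbs, sq_abs, abs_of_pos hx0]
    have h1 : y ^ 2 - x ^ 3 = d := by linarith
    rw [h1]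
    rw [abs_of_pos hx0] at hx
    push Not at hx
    exact hx

lemma hallOn_of {W : Set ℝ} {x₀ : ℝ} (h : ∀ t ∈ Pool.Agent.V60.Hall.E, (t : ℝ) ∈ W → (t : ℝ) < x₀) :
    HallOn W x₀ := by
  intro d x y hd hxy hx hW
  by_contra hcon
  have h1 := mem_E hd hxy hcon
  have e : ((x.natAbs : ℕ) : ℝ) = |(x : ℝ)| := by
    rw [Nat.cast_natAbs]
    push_cast
    rfl
  have h2 := h _ h1 (by rw [e]; exact hW)
  rw [e] at h2
  linarith

/-- the bound in the form of the problem -/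
lemma hall_log {W : Set ℝ} {x₀ : ℝ} (h : HallOn W x₀) (d x y : ℤ) (hd : d ≠ 0) (hxy : y ^ 2 = x ^ 3 + d)
    (hx0 : x ≠ 0) (hx : x₀ ≤ |(x : ℝ)|) (hW : |(x : ℝ)| ∈ W) :
    Real.log |(x : ℝ)| < Real.log |(d : ℝ)| + Real.log 32 := by
  have h1 := h d x y hd hxy hx hW
  have h2 : |(x : ℝ)| < 32 * |(d : ℝ)| := by exact_mod_cast h1
  have h3 : (0 : ℝ) < |(x : ℝ)| := by
    have : (x : ℝ) ≠ 0 := by exact_mod_cast hx0
    positivity
  have h4 : (0 : ℝ) < |(d : ℝ)| := by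
    have : (d : ℝ) ≠ 0 := by exact_mod_cast hd
    positivity
  have h5 := Real.log_lt_log h3 h2
  rw [Real.log_mul (by norm_num) h4.ne'] at h5
  linarith

/-- **Theorem.** (1) Let `ν n / log n → ∞` and let `B` be a countable set of real numbers. For every `θ < 1` there is a
set `F` of Hausdorff dimension at most `(5 / 6) / (1 - θ)` such that for each `u > 1` outside `F` and each positive `β`
in `B` there is `x₀` such that all integral points `(x, y)` of Mordell curves `y ^ 2 = x ^ 3 + d`, `d ≠ 0`, with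
`|x| ≥ x₀` and `||x| - β u ^ (ν n)| ≤ u ^ (θ ν n)` for some `n` satisfy `|x| < 32 |d|`.
(2) For almost every real `u > 1` this holds for all `θ < 1 / 6`.
(3) For all sequences `v ≥ 1` of exponent of convergence at most `τ ≥ 0` and all `θ < 1` there is a set `F` of Hausdorff
dimension at most `(5 / 6 + τ) / (1 - θ)` such that for each `α > 0` outside `F` and all large `n` all the integral
points with `d ≠ 0` and `||x| - α v_n| ≤ v_n ^ θ` satisfy `|x| < 32 |d|`.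
(4) The bound `|x| < 32 |d|` gives the bound `log |x| < log |d| + log 32`, stronger than that of Hall's conjecture. -/
theorem result :
    (∀ ν : ℕ → ℝ, Fast ν → ∀ B : Set ℝ, B.Countable →
      (∀ θ : ℝ, θ < 1 → ∃ F : Set ℝ, dimH F ≤ ENNReal.ofReal (5 / 6 / (1 - θ)) ∧
        ∀ u : ℝ, 1 < u → u ∉ F → ∀ β ∈ B, 0 < β → ∃ x₀ : ℝ, HallOn {z | Near ν θ β u z} x₀) ∧
      (∀ᵐ u : ℝ, 1 < u → ∀ θ : ℝ, θ < 1 / 6 → ∀ β ∈ B, 0 < β → ∃ x₀ : ℝ, HallOn {z | Near ν θ β u z} x₀)) ∧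
    (∀ (v : ℕ → ℝ) (τ θ : ℝ), (∀ n, 1 ≤ v n) → 0 ≤ τ → ExpLe v τ → θ < 1 →
      ∃ F : Set ℝ, dimH F ≤ ENNReal.ofReal ((5 / 6 + τ) / (1 - θ)) ∧ ∀ α : ℝ, 0 < α → α ∉ F →
        ∃ n₀ : ℕ, ∀ n : ℕ, n₀ ≤ n → HallOn {z | |z - α * v n| ≤ (v n) ^ θ} 0) ∧
    (∀ (W : Set ℝ) (x₀ : ℝ), HallOn W x₀ → ∀ d x y : ℤ, d ≠ 0 → y ^ 2 = x ^ 3 + d → x ≠ 0 → x₀ ≤ |(x : ℝ)| →
      |(x : ℝ)| ∈ W → Real.log |(x : ℝ)| < Real.log |(d : ℝ)| + Real.log 32) := by
  refine ⟨fun ν hν B hB => ⟨fun θ hθ => ?_, ?_⟩, fun v τ θ hv hτ hE hθ => ?_, fun W x₀ h => hall_log h⟩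
  · obtain ⟨F, h1, h2⟩ := family_threshold (fun t : ℕ => (t : ℝ)) hν (s := 5 / 6) (by norm_num) hθ B hB
      (J := Unit) (fun _ => Pool.Agent.V60.Hall.E) (fun _ ε hε => Pool.Agent.V60.Hall.count ε hε)
    refine ⟨F, h1, fun u hu huF β hβ hβ0 => ?_⟩
    obtain ⟨H₀, hH⟩ := h2 u hu huF β hβ hβ0 ()
    exact ⟨H₀, hallOn_of hH⟩
  · filter_upwards [ae_family_threshold (fun t : ℕ => (t : ℝ)) hν (s := 5 / 6) (by norm_num) B hB
      (J := Unit) (fun _ => Pool.Agent.V60.Hall.E) (fun _ ε hε => Pool.Agent.V60.Hall.count ε hε)]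
      with u hu hu1 θ hθ β hβ hβ0
    obtain ⟨H₀, hH⟩ := hu hu1 θ (by linarith) β hβ hβ0 ()
    exact ⟨H₀, hallOn_of hH⟩
  · obtain ⟨F, h1, h2⟩ := Pool.Agent.Y854.GM.windows Pool.Agent.V60.Hall.E (fun t : ℕ => (t : ℝ)) hv hτ hE
      (by norm_num : (0 : ℝ) ≤ 5 / 6) hθ (fun ε hε => Pool.Agent.V60.Hall.count ε hε)
    refine ⟨F, h1, fun α hα hαF => ?_⟩
    obtain ⟨n₀, hn⟩ := h2 α hα hαF
    refine ⟨n₀, fun n hn1 => ?_⟩
    intro d x y hd hxy _ hW
    by_contra hcon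
    have h3 := mem_E hd hxy hcon
    have e : ((x.natAbs : ℕ) : ℝ) = |(x : ℝ)| := by
      rw [Nat.cast_natAbs]
      push_cast
      rfl
    have h4 := hn n hn1 _ h3
    rw [e] at h4
    exact absurd hW (not_le.2 h4)

end Pool.Agent.Results.MP_9d7cd1_nt.AbscissaWindows
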