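import Mathlib
import Pool.Agent.Y913.Nb.Ratio

/-!
# Hall's inequality for integral points with few exponents: few exceptions

Consider the integral points `(x, y)`, `x y ≠ 0`, of all curves `y ^ 2 = x ^ 3 + d`, `d ≠ 0`, such that
at most `n` different exponents occur in the prime factorisation of each of `x` and `y` (the number of
primes is not bounded), or such that `|x|` and `|y|` are products of powers of `n` positive integers at
most `rad (x y) ^ A`. For all `n`, `A`, `δ > 0` and `ε > 0` there are `K` and `C` such that for every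
`Y ≥ 1` at most `C Y ^ ε` such points with `x`, `y` coprime, `rad (x y) ≤ Y` and
`|x| ≥ rad (x y) ^ K` violate `log |x| < (1 / 3 + δ) log |d|`; without the condition of coprimality
the violations have at most `C Y ^ ε` different ratios `x ^ 3 / y ^ 2`. Hall's conjecture has `2 + ε`
in the place of `1 / 3 + δ`. There is no upper bound on `x` and `y`.

The proof: dyadic decomposition and the theorem `Y913.Nb.hall_finite` of the library (the ratios
`x ^ 3 / y ^ 2` with `x`, `y` products of powers of `n` integers `≤ Y` and `x ≥ Y ^ K`, starting file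
`MP_e734ed_nt.FewBasesRatios`); the lemmas on products of few powers and the summation are taken
from `MP_d8bd92_nt.FewExponentsAllHeights` (helper288).
-/

set_option autoImplicit false

namespace Pool.Agent.Results.MP_9d7cd1_nt.FewExponents

/-- the product of the primes dividing `m` -/
def radical (m : ℕ) : ℕ := ∏ p ∈ m.primeFactors, p

/-- the exponents which occur in the prime factorisation of `m` -/
def exponents (m : ℕ) : Finset ℕ := m.primeFactors.image fun p => m.factorization p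

/-- `m` is a product of powers of `n` positive integers `≤ X`; the exponents are arbitrary -/
def PowerProduct (n X m : ℕ) : Prop :=
  ∃ b e : Fin n → ℕ, (∀ i, 1 ≤ b i ∧ b i ≤ X) ∧ m = ∏ i, b i ^ e i

/-- the radical of `x y` -/
def rad (x y : ℤ) : ℕ := radical (x.natAbs * y.natAbs)

/-- `|x|` and `|y|` are products of powers of `n` positive integers at most `rad (x y) ^ A`, or at most
`n` different exponents occur in the prime factorisation of each of `x` and `y` -/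
def Few (n A : ℕ) (x y : ℤ) : Prop :=
  (PowerProduct n (rad x y ^ A) x.natAbs ∧ PowerProduct n (rad x y ^ A) y.natAbs) ∨
    ((exponents x.natAbs).card ≤ n ∧ (exponents y.natAbs).card ≤ n)

/-- the integral points `(x, y)`, `x y ≠ 0`, of the curves `y ^ 2 = x ^ 3 + d`, `d ≠ 0`, with the
property `Few n A`, with `rad (x y) ≤ Y`, `|x| ≥ rad (x y) ^ K`, which violate
`log |x| < (1 / 3 + δ) log |d|`, `d = y ^ 2 - x ^ 3` -/
def violations (n A : ℕ) (δ K Y : ℝ) : Set (ℤ × ℤ) :=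
  {t | t.1 ≠ 0 ∧ t.2 ≠ 0 ∧ t.2 ^ 2 - t.1 ^ 3 ≠ 0 ∧ Few n A t.1 t.2 ∧ (rad t.1 t.2 : ℝ) ≤ Y ∧
    (rad t.1 t.2 : ℝ) ^ K ≤ |(t.1 : ℝ)| ∧
    (1 / 3 + δ) * Real.log |((t.2 ^ 2 - t.1 ^ 3 : ℤ) : ℝ)| ≤ Real.log |(t.1 : ℝ)|}

/-- the ratios `x ^ 3 / y ^ 2` of the violations -/
def ratios (n A : ℕ) (δ K Y : ℝ) : Set ℚ :=
  {r | ∃ t ∈ violations n A δ K Y, r = (t.1 : ℚ) ^ 3 / (t.2 : ℚ) ^ 2}

/-! ### Products of few powers -/

lemma pp_cons {N X m x e : ℕ} (h : PowerProduct N X m) (hx : 1 ≤ x) (hxX : x ≤ X) :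
    PowerProduct (N + 1) X (x ^ e * m) := by
  obtain ⟨y, f, hy, rfl⟩ := h
  refine ⟨Fin.cons x y, Fin.cons e f, ?_, ?_⟩
  · intro j
    refine Fin.cases ?_ (fun i => ?_) j
    · simpa using ⟨hx, hxX⟩
    · simpa using hy i
  · rw [Fin.prod_univ_succ]
    simp

lemma pp_mono {N N' X m : ℕ} (hX : 1 ≤ X) (h : PowerProduct N X m) (hN : N ≤ N') :
    PowerProduct N' X m := by
  induction N', hN using Nat.le_induction with
  | base => exact h
  | succ k _ ih =>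
    have := pp_cons (x := 1) (e := 0) ih le_rfl hX
    simpa using this

lemma pp_prod {X : ℕ} (g : ℕ → ℕ) (hg : ∀ e, 1 ≤ g e ∧ g e ≤ X) (E : Finset ℕ) :
    PowerProduct E.card X (∏ e ∈ E, g e ^ e) := by
  classical
  induction E using Finset.induction_on with
  | empty => exact ⟨Fin.elim0, Fin.elim0, fun j => j.elim0, by simp⟩
  | insert e E he ih =>
    rw [Finset.prod_insert he, Finset.card_insert_of_notMem he]
    exact pp_cons ih (hg e).1 (hg e).2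

/-- a number with few exponents is a product of few powers -/
lemma powerProduct_of {m N X : ℕ} (hm : m ≠ 0) (E : Finset ℕ) (hE : E.card ≤ N)
    (h : ∀ p ∈ m.primeFactors, m.factorization p ∈ E) (hX1 : 1 ≤ X)
    (hX : ∏ p ∈ m.primeFactors, p ≤ X) : PowerProduct N X m := by
  classical
  have h1 : m = ∏ e ∈ E, (∏ p ∈ m.primeFactors.filter (fun p => m.factorization p = e), p) ^ e := by
    conv_lhs => rw [← Nat.prod_factorization_pow_eq_self hm]
    rw [Finsupp.prod, Nat.support_factorization,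
      ← Finset.prod_fiberwise_of_maps_to (g := fun p => m.factorization p) (t := E) h]
    refine Finset.prod_congr rfl fun e _ => ?_
    rw [← Finset.prod_pow]
    refine Finset.prod_congr rfl fun p hp => ?_
    rw [(Finset.mem_filter.1 hp).2]
  rw [h1]
  refine pp_mono hX1 (pp_prod _ (fun e => ⟨?_, ?_⟩) E) hE
  · exact Finset.prod_pos fun p hp => (Nat.prime_of_mem_primeFactors (Finset.mem_filter.1 hp).1).pos
  · refine le_trans ?_ hX
    exact Finset.prod_le_prod_of_subset_of_one_le' (Finset.filter_subset _ _)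
      fun p hp _ => (Nat.prime_of_mem_primeFactors hp).one_le

open Pool.Agent.Y913.Nb (NB hall hall_finite)

lemma nb_of {n X m : ℕ} {Z : ℝ} (h : PowerProduct n X m) (hX : (X : ℝ) ≤ Z) :
    NB n Z m := by
  obtain ⟨b, e, hb, hm⟩ := h
  exact ⟨b, e, fun i => ⟨(hb i).1, le_trans (by exact_mod_cast (hb i).2) hX⟩, hm⟩

/-! ### The points -/

lemma radical_pos (m : ℕ) : 0 < radical m :=
  Finset.prod_pos fun _ hp => (Nat.prime_of_mem_primeFactors hp).pos

lemma radical_le_of_dvd {m k : ℕ} (hk : k ≠ 0) (h : m ∣ k) : radical m ≤ radical k :=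
  Finset.prod_le_prod_of_subset_of_one_le' (Nat.primeFactors_mono h hk)
    fun _ hp _ => (Nat.prime_of_mem_primeFactors hp).one_le

/-- both numbers are products of powers of integers at most `Z` -/
lemma few_nb {n A : ℕ} {x y : ℤ} (hx : x ≠ 0) (hy : y ≠ 0) (h : Few n A x y) {Z : ℝ}
    (hZ : ((rad x y : ℕ) : ℝ) ^ (A + 1) ≤ Z) :
    NB n Z x.natAbs ∧ NB n Z y.natAbs := by
  have hx0 : x.natAbs ≠ 0 := Int.natAbs_ne_zero.2 hx
  have hy0 : y.natAbs ≠ 0 := Int.natAbs_ne_zero.2 hy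
  have hR1 : 1 ≤ rad x y := radical_pos _
  have hR1' : (1 : ℝ) ≤ rad x y := by exact_mod_cast hR1
  rcases h with ⟨h1, h2⟩ | ⟨h1, h2⟩
  · have e : ((rad x y ^ A : ℕ) : ℝ) ≤ Z := by
      refine le_trans ?_ hZ
      push_cast
      exact pow_le_pow_right₀ hR1' (Nat.le_succ A)
    exact ⟨nb_of h1 e, nb_of h2 e⟩
  · have e : ((rad x y : ℕ) : ℝ) ≤ Z := by
      refine le_trans ?_ hZ
      exact le_self_pow₀ hR1' (Nat.succ_ne_zero A)
    have h0 : x.natAbs * y.natAbs ≠ 0 := mul_ne_zero hx0 hy0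
    refine ⟨nb_of (powerProduct_of hx0 _ h1 (fun p hp => Finset.mem_image_of_mem _ hp) hR1 ?_) e,
      nb_of (powerProduct_of hy0 _ h2 (fun p hp => Finset.mem_image_of_mem _ hp) hR1 ?_) e⟩
    · exact radical_le_of_dvd h0 (Dvd.intro _ rfl)
    · exact radical_le_of_dvd h0 (Dvd.intro_left _ rfl)

/-- a violation has `x > 0` and `|x ^ 3 - y ^ 2| ≤ x ^ (3 - δ')` -/
lemma small_diff {n A : ℕ} {δ K Y : ℝ} (hδ : 0 < δ) {t : ℤ × ℤ} (ht : t ∈ violations n A δ K Y) :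
    0 < t.1 ∧ |(t.1 : ℝ) ^ 3 - (t.2 : ℝ) ^ 2| ≤ (t.1 : ℝ) ^ (3 - 9 * δ / (1 + 3 * δ)) := by
  obtain ⟨h1, h2, h3, -, -, -, h7⟩ := ht
  obtain ⟨x, y⟩ := t
  simp only at h1 h2 h3 h7 ⊢
  have hy2 : (1 : ℤ) ≤ y ^ 2 := by
    have := sq_nonneg y
    have h4 : y ^ 2 ≠ 0 := pow_ne_zero 2 h2
    omega
  have hx0 : 0 < x := by
    by_contra hneg
    have hx1 : x ≤ -1 := by omega
    obtain ⟨z, hz⟩ : ∃ z : ℤ, z = -x := ⟨_, rfl⟩
    have hz1 : 1 ≤ z := by omega
    have hxz : x = -z := by omega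
    have hzr : (1 : ℝ) ≤ z := by exact_mod_cast hz1
    have e1 : ((y ^ 2 - x ^ 3 : ℤ) : ℝ) = (y : ℝ) ^ 2 + (z : ℝ) ^ 3 := by
      rw [hxz]
      push_cast
      ring
    have e2 : |(x : ℝ)| = z := by
      rw [hxz]
      push_cast
      rw [abs_neg, abs_of_pos (by linarith)]
    have hy2r : (1 : ℝ) ≤ (y : ℝ) ^ 2 := by exact_mod_cast hy2
    have hz3 : 0 < (z : ℝ) ^ 3 := by positivity
    rw [e1, e2, abs_of_pos (by linarith)] at h7
    have e3 : Real.log ((z : ℝ) ^ 3) < Real.log ((y : ℝ) ^ 2 + (z : ℝ) ^ 3) :=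
      Real.log_lt_log hz3 (by linarith)
    rw [Real.log_pow] at e3
    push_cast at e3
    have hlz : 0 ≤ Real.log (z : ℝ) := Real.log_nonneg hzr
    have e4 : (1 / 3 + δ) * (3 * Real.log (z : ℝ)) <
        (1 / 3 + δ) * Real.log ((y : ℝ) ^ 2 + (z : ℝ) ^ 3) :=
      mul_lt_mul_of_pos_left e3 (by linarith)
    nlinarith
  refine ⟨hx0, ?_⟩
  have hxr : (0 : ℝ) < x := by exact_mod_cast hx0
  have e1 : |(x : ℝ) ^ 3 - (y : ℝ) ^ 2| = |((y ^ 2 - x ^ 3 : ℤ) : ℝ)| := by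
    push_cast
    exact abs_sub_comm _ _
  rw [e1]
  have e2 : (0 : ℝ) < |((y ^ 2 - x ^ 3 : ℤ) : ℝ)| := abs_pos.2 (by exact_mod_cast h3)
  rw [abs_of_pos hxr] at h7
  rw [← Real.log_le_log_iff e2 (Real.rpow_pos_of_pos hxr _), Real.log_rpow hxr]
  have e3 : (1 / 3 + δ) * (3 - 9 * δ / (1 + 3 * δ)) = 1 := by
    field_simp
    ring
  have e4 : (1 / 3 + δ) * Real.log |((y ^ 2 - x ^ 3 : ℤ) : ℝ)| ≤
      (1 / 3 + δ) * ((3 - 9 * δ / (1 + 3 * δ)) * Real.log (x : ℝ)) := by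
    rw [← mul_assoc, e3, one_mul]
    exact h7
  exact le_of_mul_le_mul_left e4 (by linarith)

/-- the ratio of a violation -/
lemma to_hall {n A : ℕ} {δ K Y : ℝ} (hδ : 0 < δ) (hK : 0 < K) {t : ℤ × ℤ}
    (ht : t ∈ violations n A δ (2 * (A + 1) * K) Y) :
    (t.1 : ℚ) ^ 3 / (t.2 : ℚ) ^ 2 ∈ hall n (9 * δ / (1 + 3 * δ)) K
      (((2 : ℝ) ^ (Nat.log 2 (rad t.1 t.2) + 1)) ^ (A + 1)) := by
  obtain ⟨hx0, hdiff⟩ := small_diff hδ ht
  obtain ⟨h1, h2, h3, h4, h5, h6, h7⟩ := ht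
  obtain ⟨x, y⟩ := t
  simp only at h1 h2 h3 h4 h5 h6 h7 hx0 hdiff ⊢
  obtain ⟨R, hR⟩ : ∃ R : ℕ, R = rad x y := ⟨_, rfl⟩
  obtain ⟨i, hi⟩ : ∃ i, i = Nat.log 2 (rad x y) := ⟨_, rfl⟩
  rw [← hi]
  rw [← hR] at h6
  have hR1 : 1 ≤ R := by rw [hR]; exact radical_pos _
  have hlt : R < 2 ^ (i + 1) := by
    rw [hi, hR]
    exact Nat.lt_pow_succ_log_self (by norm_num) _
  have hle : 2 ^ i ≤ R := by
    rw [hi, hR]
    exact Nat.pow_log_le_self 2 (by rw [← hR]; omega)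
  -- the radical is at least `2`
  have hR2 : 2 ≤ R := by
    by_contra hlt2
    have hRe : R = 1 := by omega
    have hall1 : ∀ p : ℕ, p.Prime → ¬ p ∣ x.natAbs * y.natAbs := by
      intro p hp hd
      have h0 : x.natAbs * y.natAbs ≠ 0 :=
        mul_ne_zero (Int.natAbs_ne_zero.2 h1) (Int.natAbs_ne_zero.2 h2)
      have h8 : p ∣ R := by
        rw [hR]
        exact Finset.dvd_prod_of_mem _ (Nat.mem_primeFactors.2 ⟨hp, hd, h0⟩)
      rw [hRe] at h8
      exact hp.one_lt.ne' (Nat.dvd_one.1 h8)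
    have h9 : x.natAbs * y.natAbs = 1 := by
      by_contra hne
      obtain ⟨p, hp, hd⟩ := Nat.exists_prime_and_dvd hne
      exact hall1 p hp hd
    have h10 : x.natAbs = 1 := Nat.eq_one_of_mul_eq_one_right h9
    have h11 : y.natAbs = 1 := Nat.eq_one_of_mul_eq_one_left h9
    have h12 : x = 1 := by omega
    have h13 : y ^ 2 = 1 := by
      have : y = 1 ∨ y = -1 := by omega
      rcases this with h | h <;> rw [h] <;> norm_num
    apply h3
    rw [h12, h13]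
    norm_num
  have hxr : (0 : ℝ) < x := by exact_mod_cast hx0
  have hRr : (2 : ℝ) ≤ R := by exact_mod_cast hR2
  have hZR : ((rad x y : ℕ) : ℝ) ^ (A + 1) ≤ ((2 : ℝ) ^ (i + 1)) ^ (A + 1) := by
    rw [← hR]
    refine pow_le_pow_left₀ (Nat.cast_nonneg _) ?_ _
    exact_mod_cast hlt.le
  obtain ⟨hn1, hn2⟩ := few_nb h1 h2 h4 hZR
  have hxc : ((x.natAbs : ℕ) : ℝ) = (x : ℝ) := by
    rw [Nat.cast_natAbs, abs_of_pos hx0]
  have hyc : ((y.natAbs : ℕ) : ℝ) ^ 2 = (y : ℝ) ^ 2 := by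
    rw [Nat.cast_natAbs]
    push_cast
    exact sq_abs _
  refine ⟨x.natAbs, y.natAbs, hn1, hn2, ?_, ?_, ?_, ?_⟩
  · rw [hxc]
    rw [abs_of_pos hxr] at h6
    refine le_trans ?_ h6
    have e1 : ((2 : ℝ) ^ (i + 1)) ≤ (R : ℝ) ^ 2 := by
      have h8 : ((2 ^ i : ℕ) : ℝ) ≤ (R : ℝ) := by exact_mod_cast hle
      push_cast at h8
      rw [pow_succ]
      nlinarith
    have e2 : ((2 : ℝ) ^ (i + 1)) ^ (A + 1) ≤ (R : ℝ) ^ (2 * (A + 1)) := by
      rw [pow_mul]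
      exact pow_le_pow_left₀ (by positivity) e1 _
    calc (((2 : ℝ) ^ (i + 1)) ^ (A + 1)) ^ K ≤ ((R : ℝ) ^ (2 * (A + 1))) ^ K :=
          Real.rpow_le_rpow (by positivity) e2 hK.le
      _ = (R : ℝ) ^ (2 * (A + 1) * K) := by
          rw [← Real.rpow_natCast, ← Real.rpow_mul (by linarith)]
          push_cast
          ring_nf
  · intro he
    apply h3
    have h8 : ((x.natAbs : ℕ) : ℤ) ^ 3 = ((y.natAbs : ℕ) : ℤ) ^ 2 := by exact_mod_cast he
    rw [Int.natCast_natAbs, Int.natCast_natAbs, abs_of_pos hx0, sq_abs] at h8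
    rw [← h8]
    ring
  · rw [hxc, hyc]
    exact hdiff
  · have e1 : ((x.natAbs : ℕ) : ℚ) = (x : ℚ) := by
      rw [Nat.cast_natAbs, abs_of_pos hx0]
    have e2 : ((y.natAbs : ℕ) : ℚ) ^ 2 = (y : ℚ) ^ 2 := by
      rw [Nat.cast_natAbs]
      push_cast
      exact sq_abs _
    rw [e1, e2]

/-- a coprime pair `x, y > 0` is determined by `x ^ 3 / y ^ 2` -/
lemma inj_pos {x y x' y' : ℤ} (hx : 0 < x) (hy : 0 < y) (hx' : 0 < x') (hy' : 0 < y')
    (hc : IsCoprime x y) (hc' : IsCoprime x' y')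
    (h : (x : ℚ) ^ 3 / (y : ℚ) ^ 2 = (x' : ℚ) ^ 3 / (y' : ℚ) ^ 2) : x = x' ∧ y = y' := by
  have hyq : (y : ℚ) ^ 2 ≠ 0 := by positivity
  have hyq' : (y' : ℚ) ^ 2 ≠ 0 := by positivity
  rw [div_eq_div_iff hyq hyq'] at h
  have h1 : x ^ 3 * y' ^ 2 = x' ^ 3 * y ^ 2 := by exact_mod_cast h
  have hc1 : IsCoprime (x ^ 3) (y ^ 2) := hc.pow
  have hc1' : IsCoprime (x' ^ 3) (y' ^ 2) := hc'.pow
  have d1 : x ^ 3 ∣ x' ^ 3 := hc1.dvd_of_dvd_mul_right (Dvd.intro _ h1)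
  have d2 : x' ^ 3 ∣ x ^ 3 := hc1'.dvd_of_dvd_mul_right (Dvd.intro _ h1.symm)
  have e1 : x ^ 3 = x' ^ 3 := Int.dvd_antisymm (by positivity) (by positivity) d1 d2
  have e2 : x = x' := by
    have h3 : x.natAbs ^ 3 = x'.natAbs ^ 3 := by
      rw [← Int.natAbs_pow, ← Int.natAbs_pow, e1]
    have h4 := Nat.pow_left_injective (show 3 ≠ 0 by norm_num) h3
    omega
  refine ⟨e2, ?_⟩
  rw [← e2] at h1
  have h5 : y' ^ 2 = y ^ 2 := mul_left_cancel₀ (by positivity) h1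
  have h6 : y'.natAbs ^ 2 = y.natAbs ^ 2 := by
    rw [← Int.natAbs_pow, ← Int.natAbs_pow, h5]
  have h7 := Nat.pow_left_injective (show 2 ≠ 0 by norm_num) h6
  omega

/-- **Main theorem.** -/
theorem result (n A : ℕ) (δ ε : ℝ) (hδ : 0 < δ) (hε : 0 < ε) : ∃ K C : ℝ, 0 < K ∧ 0 < C ∧
    ∀ Y : ℝ, 1 ≤ Y →
      ((ratios n A δ K Y).Finite ∧ ((ratios n A δ K Y).ncard : ℝ) ≤ C * Y ^ ε) ∧
      ({t | t ∈ violations n A δ K Y ∧ IsCoprime t.1 t.2}.Finite ∧
        ({t | t ∈ violations n A δ K Y ∧ IsCoprime t.1 t.2}.ncard : ℝ) ≤ C * Y ^ ε) := by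
  classical
  have hA1 : (0 : ℝ) < (A : ℝ) + 1 := by positivity
  obtain ⟨K, C, hK, hC, h⟩ := hall_finite n (9 * δ / (1 + 3 * δ)) (ε / (2 * (A + 1)))
    (by positivity) (by positivity)
  obtain ⟨D, hD⟩ : ∃ D : ℕ → Set ℚ, D = fun i => hall n (9 * δ / (1 + 3 * δ)) K
    (((2 : ℝ) ^ (i + 1)) ^ (A + 1)) := ⟨_, rfl⟩
  have hDi : ∀ i, (D i).Finite ∧ ((D i).ncard : ℝ) ≤ C * ((2 : ℝ) ^ (i + 1)) ^ (ε / 2) := by
    intro i
    have h1 : (1 : ℝ) ≤ ((2 : ℝ) ^ (i + 1)) ^ (A + 1) :=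
      one_le_pow₀ (one_le_pow₀ (by norm_num))
    obtain ⟨h2, h3⟩ := h _ h1
    rw [hD]
    refine ⟨h2, h3.trans (le_of_eq ?_)⟩
    congr 1
    rw [← Real.rpow_natCast ((2 : ℝ) ^ (i + 1)) (A + 1), ← Real.rpow_mul (by positivity)]
    congr 1
    push_cast
    field_simp
  have hl2 : 0 < Real.log 2 := Real.log_pos (by norm_num)
  obtain ⟨C₁, hC₁⟩ : ∃ C₁ : ℝ, C₁ = (1 / ((ε / 2) * Real.log 2) + 1) * (C * 2 ^ (ε / 2)) := ⟨_, rfl⟩
  have hC₁0 : 0 < C₁ := by rw [hC₁]; positivity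
  have hmain : ∀ Y : ℝ, 1 ≤ Y → (ratios n A δ (2 * (A + 1) * K) Y).Finite ∧
      ((ratios n A δ (2 * (A + 1) * K) Y).ncard : ℝ) ≤ C₁ * Y ^ ε := by
    intro X hX
    have hX0 : 0 < X := by linarith
    obtain ⟨L, hL⟩ : ∃ L : ℕ, L = Nat.log 2 ⌊X⌋₊ := ⟨_, rfl⟩
    have hfl : 1 ≤ ⌊X⌋₊ := Nat.le_floor (by exact_mod_cast hX)
    have h2L : ∀ i ≤ L, (2 : ℝ) ^ i ≤ X := by
      intro i hi
      have h1 : 2 ^ i ≤ ⌊X⌋₊ := by
        calc 2 ^ i ≤ 2 ^ L := Nat.pow_le_pow_right (by norm_num) hi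
          _ ≤ ⌊X⌋₊ := by rw [hL]; exact Nat.pow_log_le_self 2 (by omega)
      have h2 : ((2 ^ i : ℕ) : ℝ) ≤ X := le_trans (by exact_mod_cast h1) (Nat.floor_le hX0.le)
      push_cast at h2
      exact h2
    have hcov : ratios n A δ (2 * (A + 1) * K) X ⊆ ⋃ i ∈ Finset.range (L + 1), D i := by
      rintro _ ⟨t, ht, rfl⟩
      rw [Set.mem_iUnion₂]
      refine ⟨Nat.log 2 (rad t.1 t.2), ?_, ?_⟩
      · rw [Finset.mem_range, hL]
        exact Nat.lt_succ_of_le (Nat.log_mono_right (Nat.le_floor ht.2.2.2.2.1))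
      · rw [hD]
        exact to_hall hδ hK ht
    have hfin : (⋃ i ∈ Finset.range (L + 1), D i).Finite :=
      Set.Finite.biUnion (Finset.finite_toSet _) fun i _ => (hDi i).1
    refine ⟨hfin.subset hcov, ?_⟩
    have hc1 : ((⋃ i ∈ Finset.range (L + 1), D i).ncard : ℝ) ≤
        ∑ i ∈ Finset.range (L + 1), ((D i).ncard : ℝ) := by
      have : (⋃ i ∈ Finset.range (L + 1), D i).ncard ≤ ∑ i ∈ Finset.range (L + 1), (D i).ncard := by
        generalize Finset.range (L + 1) = S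
        induction S using Finset.induction_on with
        | empty => simp
        | insert a S ha ih =>
          rw [Finset.set_biUnion_insert, Finset.sum_insert ha]
          exact (Set.ncard_union_le _ _).trans (Nat.add_le_add_left ih _)
      exact_mod_cast this
    have hc2 : ∀ i ∈ Finset.range (L + 1),
        ((D i).ncard : ℝ) ≤ C * 2 ^ (ε / 2) * X ^ (ε / 2) := by
      intro i hi
      refine (hDi i).2.trans ?_
      rw [mul_assoc]
      refine mul_le_mul_of_nonneg_left ?_ hC.le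
      rw [pow_succ, mul_comm, Real.mul_rpow (by norm_num) (by positivity)]
      refine mul_le_mul_of_nonneg_left ?_ (by positivity)
      exact Real.rpow_le_rpow (by positivity)
        (h2L i (by rw [Finset.mem_range] at hi; omega)) (by positivity)
    have hc3 : ((L + 1 : ℕ) : ℝ) ≤ (1 / ((ε / 2) * Real.log 2) + 1) * X ^ (ε / 2) := by
      have e1 : (2 : ℝ) ^ L ≤ X := h2L L le_rfl
      have e2 := Real.log_le_log (by positivity) e1
      rw [Real.log_pow] at e2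
      have e3 : Real.log X ≤ X ^ (ε / 2) / (ε / 2) := Real.log_le_rpow_div hX0.le (by positivity)
      have e4 : (L : ℝ) ≤ 1 / ((ε / 2) * Real.log 2) * X ^ (ε / 2) := by
        have e5 : (L : ℝ) * Real.log 2 ≤ X ^ (ε / 2) / (ε / 2) := e2.trans e3
        rw [div_mul_eq_mul_div, one_mul, le_div_iff₀ (by positivity)]
        rw [le_div_iff₀ (by positivity)] at e5
        linarith
      have e6 : 1 ≤ X ^ (ε / 2) := Real.one_le_rpow hX (by positivity)
      push_cast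
      rw [add_mul, one_mul]
      linarith
    calc ((ratios n A δ (2 * (A + 1) * K) X).ncard : ℝ) ≤
          ((⋃ i ∈ Finset.range (L + 1), D i).ncard : ℝ) := by
          exact_mod_cast Set.ncard_le_ncard hcov hfin
      _ ≤ ∑ i ∈ Finset.range (L + 1), ((D i).ncard : ℝ) := hc1
      _ ≤ ∑ i ∈ Finset.range (L + 1), (C * 2 ^ (ε / 2) * X ^ (ε / 2)) := Finset.sum_le_sum hc2
      _ = ((L + 1 : ℕ) : ℝ) * (C * 2 ^ (ε / 2) * X ^ (ε / 2)) := by
          rw [Finset.sum_const, Finset.card_range, nsmul_eq_mul]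
      _ ≤ ((1 / ((ε / 2) * Real.log 2) + 1) * X ^ (ε / 2)) * (C * 2 ^ (ε / 2) * X ^ (ε / 2)) :=
          mul_le_mul_of_nonneg_right hc3 (by positivity)
      _ = (1 / ((ε / 2) * Real.log 2) + 1) * (C * 2 ^ (ε / 2)) * (X ^ (ε / 2) * X ^ (ε / 2)) := by
          ring
      _ = _ := by
          rw [← Real.rpow_add hX0, hC₁]
          congr 2
          ring
  refine ⟨2 * (A + 1) * K, 2 * C₁, by positivity, by positivity, fun Y hY => ?_⟩
  obtain ⟨hf, hcard⟩ := hmain Y hY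
  have hY0 : 0 ≤ Y ^ ε := by positivity
  refine ⟨⟨hf, hcard.trans (by nlinarith)⟩, ?_⟩
  -- the coprime points with `y > 0` and with `y < 0`
  have key : ∀ s : ℤ, (s = 1 ∨ s = -1) →
      {t | t ∈ violations n A δ (2 * (A + 1) * K) Y ∧ IsCoprime t.1 t.2 ∧ 0 < s * t.2}.Finite ∧
      {t | t ∈ violations n A δ (2 * (A + 1) * K) Y ∧ IsCoprime t.1 t.2 ∧ 0 < s * t.2}.ncard ≤
        (ratios n A δ (2 * (A + 1) * K) Y).ncard := by
    intro s hs
    have hinj : Set.InjOn (fun t : ℤ × ℤ => (t.1 : ℚ) ^ 3 / (t.2 : ℚ) ^ 2)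
        {t | t ∈ violations n A δ (2 * (A + 1) * K) Y ∧ IsCoprime t.1 t.2 ∧ 0 < s * t.2} := by
      rintro ⟨x, y⟩ ⟨h1, h2, h3⟩ ⟨x', y'⟩ ⟨h1', h2', h3'⟩ he
      simp only at h2 h3 h2' h3' he
      have hx := (small_diff hδ h1).1
      have hx' := (small_diff hδ h1').1
      simp only at hx hx'
      rcases hs with rfl | rfl
      · obtain ⟨e1, e2⟩ := inj_pos hx (by omega) hx' (by omega) h2 h2' he
        rw [e1, e2]
      · have he' : (x : ℚ) ^ 3 / ((-y : ℤ) : ℚ) ^ 2 = (x' : ℚ) ^ 3 / ((-y' : ℤ) : ℚ) ^ 2 := by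
          push_cast
          rw [neg_sq, neg_sq]
          exact he
        obtain ⟨e1, e2⟩ := inj_pos hx (by omega) hx' (by omega) h2.neg_right h2'.neg_right he'
        rw [e1, neg_inj.1 e2]
    have hmaps : ∀ t ∈ {t | t ∈ violations n A δ (2 * (A + 1) * K) Y ∧ IsCoprime t.1 t.2 ∧
        0 < s * t.2}, (fun t : ℤ × ℤ => (t.1 : ℚ) ^ 3 / (t.2 : ℚ) ^ 2) t ∈
          ratios n A δ (2 * (A + 1) * K) Y := fun t ht => ⟨t, ht.1, rfl⟩
    exact ⟨Set.Finite.of_injOn hmaps hinj hf, Set.ncard_le_ncard_of_injOn _ hmaps hinj hf⟩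
  obtain ⟨f1, c1⟩ := key 1 (Or.inl rfl)
  obtain ⟨f2, c2⟩ := key (-1) (Or.inr rfl)
  have hsub : {t | t ∈ violations n A δ (2 * (A + 1) * K) Y ∧ IsCoprime t.1 t.2} ⊆
      {t | t ∈ violations n A δ (2 * (A + 1) * K) Y ∧ IsCoprime t.1 t.2 ∧ 0 < (1 : ℤ) * t.2} ∪
      {t | t ∈ violations n A δ (2 * (A + 1) * K) Y ∧ IsCoprime t.1 t.2 ∧ 0 < (-1 : ℤ) * t.2} := by
    rintro t ⟨h1, h2⟩
    have h3 : t.2 ≠ 0 := h1.2.1
    rcases lt_or_gt_of_ne h3 with h4 | h4
    · exact Or.inr ⟨h1, h2, by omega⟩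
    · exact Or.inl ⟨h1, h2, by omega⟩
  refine ⟨(f1.union f2).subset hsub, ?_⟩
  have h4 := (Set.ncard_le_ncard hsub (f1.union f2)).trans (Set.ncard_union_le _ _)
  have h5 : ({t | t ∈ violations n A δ (2 * (A + 1) * K) Y ∧ IsCoprime t.1 t.2}.ncard : ℝ) ≤
      ((ratios n A δ (2 * (A + 1) * K) Y).ncard : ℝ) +
        ((ratios n A δ (2 * (A + 1) * K) Y).ncard : ℝ) := by
    exact_mod_cast h4.trans (Nat.add_le_add c1 c2)
  linarith

end Pool.Agent.Results.MP_9d7cd1_nt.FewExponents
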