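import Pool.Agent.V60.LD.HallCount
import Pool.Agent.V11300.PA.Eps

/-!
# Hall's conjecture for the integral points with abscissa in the residue classes modulo `p ^ f` of almost every `p`-adic
integer

Let `p` be a prime number and `κ > 0`. For all `α ∈ ℤ_p` outside a set of Hausdorff dimension at most `5 κ / 6` and all large
`f`, EVERY integral point `(x, y)` of every curve `y ^ 2 = x ^ 3 + d`, `d ≠ 0`, with `|x| ≤ p ^ (κ f)` and
`x ≡ α mod p ^ f` satisfies `|x| < 32 |d|`, which is much more than Hall's bound `|x| ≤ C |d| ^ (2 + ε)`. For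
`1 < κ < 6 / 5` the classes contain many integers and the exceptional set has a dimension smaller than one.
-/

set_option autoImplicit false

open Filter Topology

namespace Pool.Agent.Results.MP_9d7cd1_nt.PointsInResidueClasses

open Pool.Agent.V11300.PA

lemma mem_E {d x y : ℤ} (hd : d ≠ 0) (h : y ^ 2 = x ^ 3 + d) (hx : ¬ |x| < 32 * |d|) :
    0 < x ∧ x.natAbs ∈ Pool.Agent.V60.Hall.E := by
  have hd1 : 1 ≤ |d| := Int.one_le_abs hd
  have hx0 : 0 < x := by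
    by_contra hcon
    push Not at hcon
    obtain ⟨z, hz⟩ : ∃ z : ℤ, z = -x := ⟨_, rfl⟩
    have hz0 : 0 ≤ z := by omega
    have e : x = -z := by omega
    have e2 : d = y ^ 2 + z ^ 3 := by
      rw [e] at h
      have : (-z) ^ 3 = -(z ^ 3) := by ring
      rw [this] at h
      linarith
    have h3 : 0 ≤ z ^ 3 := by positivity
    have h4 : z ≤ z ^ 3 := by
      rcases hz0.eq_or_lt with h0 | h0
      · rw [← h0]; norm_num
      · have h1 : 1 ≤ z := h0
        exact le_self_pow₀ h1 (by norm_num)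
    have h5 : 0 ≤ y ^ 2 := sq_nonneg y
    have h6 : |d| = d := abs_of_nonneg (by linarith)
    have h7 : |x| = z := by rw [e, abs_neg, abs_of_nonneg hz0]
    apply hx
    rw [h6, h7]
    linarith
  refine ⟨hx0, y.natAbs, ?_, ?_⟩
  · rw [Int.natCast_natAbs, Int.natCast_natAbs, sq_abs, abs_of_pos hx0]
    intro h1
    apply hd
    linarith
  · rw [Int.natCast_natAbs, Int.natCast_natAbs, sq_abs, abs_of_pos hx0]
    have h1 : y ^ 2 - x ^ 3 = d := by linarith
    rw [h1]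
    rw [abs_of_pos hx0] at hx
    push Not at hx
    exact hx

/-- **Theorem.** (1) Let `p` be a prime number, `κ > 0`. For all `α ∈ ℤ_p` outside a set of Hausdorff dimension at most
`κ (5 / 6)` and all large `f` all integral points `(x, y)` of Mordell curves `y ^ 2 = x ^ 3 + d`, `d ≠ 0`, with
`|x| ≤ p ^ (κ f)` and `x ≡ α mod p ^ f` satisfy `|x| < 32 |d|`.
(2) The same for the integers `x = a t + b` with `t` in the class of `α`, for all integers `a ≠ 0` and `b` at the same time.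
(3) The bound `|x| < 32 |d|` gives the bound `log |x| < log |d| + log 32`, stronger than that of Hall's conjecture. -/
theorem result :
    (∀ (p : ℕ) [Fact p.Prime] (κ : ℝ), 0 < κ → ∃ E : Set ℤ_[p], dimH E ≤ ENNReal.ofReal (κ * (5 / 6)) ∧
      ∀ α : ℤ_[p], α ∉ E → ∀ a b : ℤ, a ≠ 0 → ∃ f₀ : ℕ, ∀ f : ℕ, f₀ ≤ f → ∀ d t y : ℤ, d ≠ 0 →
        y ^ 2 = (a * t + b) ^ 3 + d → |((a * t + b : ℤ) : ℝ)| ≤ (p : ℝ) ^ (κ * f) → (p : ℤ_[p]) ^ f ∣ (t : ℤ_[p]) - α →
        |a * t + b| < 32 * |d|) ∧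
    (∀ d x : ℤ, x ≠ 0 → |x| < 32 * |d| → Real.log |(x : ℝ)| < Real.log |(d : ℝ)| + Real.log 32) := by
  refine ⟨fun p hp κ hκ => ?_, fun d x hx h1 => ?_⟩
  · have hp1 : (1 : ℝ) < p := by exact_mod_cast hp.out.one_lt
    -- pairs `(a, b)` of integers are coded by natural numbers
    obtain ⟨φ, hφ⟩ := exists_surjective_nat (ℤ × ℤ)
    obtain ⟨E, hE1, hE2⟩ := general_eps (M := ℤ_[p]) (fun t : ℤ × ℕ => (t.1 : ℤ_[p])) (fun t => t.2) hp1
      (s := 5 / 6) (by norm_num) hκ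
      (fun j _ => {t : ℤ × ℕ | (φ j).1 ≠ 0 ∧ ((t.2 : ℕ) : ℤ) = (φ j).1 * t.1 + (φ j).2 ∧ t.2 ∈ Pool.Agent.V60.Hall.E}) (by
        intro ε hε
        obtain ⟨C, hC⟩ := Pool.Agent.V60.Hall.count ε hε
        refine ⟨fun _ => C, fun j _ T hT => ?_⟩
        obtain ⟨h1, h2⟩ := hC (T : ℝ) (by exact_mod_cast hT)
        have hinj : Set.InjOn (fun t : ℤ × ℕ => t.2) {x : ℤ × ℕ | x ∈ {t : ℤ × ℕ | (φ j).1 ≠ 0 ∧
            ((t.2 : ℕ) : ℤ) = (φ j).1 * t.1 + (φ j).2 ∧ t.2 ∈ Pool.Agent.V60.Hall.E} ∧ x.2 ≤ T} := by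
          rintro ⟨x1, x2⟩ ⟨⟨ha, hx, -⟩, -⟩ ⟨y1, y2⟩ ⟨⟨-, hy, -⟩, -⟩ hxy
          simp only at ha hx hy hxy
          subst hxy
          have h3 : (φ j).1 * x1 = (φ j).1 * y1 := by linarith
          rw [mul_left_cancel₀ ha h3]
        have himg : (fun t : ℤ × ℕ => t.2) '' {x : ℤ × ℕ | x ∈ {t : ℤ × ℕ | (φ j).1 ≠ 0 ∧
            ((t.2 : ℕ) : ℤ) = (φ j).1 * t.1 + (φ j).2 ∧ t.2 ∈ Pool.Agent.V60.Hall.E} ∧ x.2 ≤ T} ⊆
            {t : ℕ | t ∈ Pool.Agent.V60.Hall.E ∧ (t : ℝ) ≤ (T : ℝ)} := by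
          rintro _ ⟨x, ⟨⟨-, -, h3⟩, h4⟩, rfl⟩
          exact ⟨h3, by exact_mod_cast h4⟩
        refine ⟨(h1.subset himg).of_finite_image hinj, ?_⟩
        rw [← hinj.ncard_image]
        exact ((Nat.cast_le (α := ℝ)).2 (Set.ncard_le_ncard himg h1)).trans h2)
    refine ⟨E, hE1, fun α hα a b ha => ?_⟩
    obtain ⟨j, hj⟩ := hφ (a, b)
    obtain ⟨f₀, hf⟩ := hE2 α hα j
    refine ⟨f₀, fun f hff d t y hd hxy hx hdvd => ?_⟩
    by_contra hcon
    obtain ⟨hpos, hmem⟩ := mem_E hd hxy hcon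
    refine hf f hff (t, (a * t + b).natAbs) ?_ ?_ ⟨?_, ?_, hmem⟩
    · simp only
      rw [Nat.cast_natAbs, Int.cast_abs]
      exact hx
    · rw [dist_eq_norm]
      exact dist_le_of_dvd p hdvd
    · rw [hj]
      exact ha
    · rw [hj]
      simp only
      rw [Int.natCast_natAbs, abs_of_pos hpos]
  · have h2 : |(x : ℝ)| < 32 * |(d : ℝ)| := by exact_mod_cast h1
    have h3 : (0 : ℝ) < |(x : ℝ)| := by
      have : (x : ℝ) ≠ 0 := by exact_mod_cast hx
      positivity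
    have h4 : (0 : ℝ) < |(d : ℝ)| := by
      rcases (abs_nonneg (d : ℝ)).eq_or_lt with h0 | h0
      · rw [← h0] at h2
        linarith
      · exact h0
    have h5 := Real.log_lt_log h3 h2
    rw [Real.log_mul (by norm_num) h4.ne'] at h5
    linarith

end Pool.Agent.Results.MP_9d7cd1_nt.PointsInResidueClasses
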